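import Mathlib

/-!
# MP_79af62_gt: Bang's affine plank inequality when the width chords lie in the other planks
-/

set_option autoImplicit false

namespace Pool.Agent.Results.MP_79af62_gt.InsideChords

open Finset

/-- The harmonic mean of `1 - a` and `1 - b` with weights `1 - c` and `c`. -/
noncomputable def X (a b c : ℝ) : ℝ := (1 - a) * (1 - b) / ((1 - c) * (1 - b) + c * (1 - a))

theorem X_refl (a b d : ℝ) : X (1 - a) (1 - b) d = a * b / ((1 - d) * b + d * a) := by
  unfold X
  rw [show (1 - (1 - a)) * (1 - (1 - b)) = a * b by ring,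
    show (1 - d) * (1 - (1 - b)) + d * (1 - (1 - a)) = (1 - d) * b + d * a by ring]

theorem X_nonneg {a b c : ℝ} (ha : a ≤ 1) (hb : b ≤ 1) (hc0 : 0 ≤ c) (hc : c ≤ 1) :
    0 ≤ X a b c := by
  unfold X
  have h1 : 0 ≤ 1 - a := by linarith
  have h2 : 0 ≤ 1 - b := by linarith
  have h3 : 0 ≤ 1 - c := by linarith
  positivity

theorem X_le_one {a b c : ℝ} (ha0 : 0 ≤ a) (ha : a ≤ 1) (hb0 : 0 ≤ b) (hb : b ≤ 1) (hc0 : 0 ≤ c)
    (hc : c ≤ 1) : X a b c ≤ 1 := by
  unfold X
  have h1 : 0 ≤ 1 - a := by linarith
  have h2 : 0 ≤ 1 - b := by linarith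
  have h3 : 0 ≤ 1 - c := by linarith
  apply div_le_one_of_le₀ _ (by positivity)
  nlinarith [mul_nonneg h1 h2, mul_nonneg h3 (mul_nonneg ha0 h2), mul_nonneg hc0 (mul_nonneg hb0 h1)]

theorem gen_identity (N1 N2 N3 N4 D1 D2 D3 D4 M : ℝ) (h1 : D1 ≠ 0) (h2 : D2 ≠ 0)
    (h3 : D3 ≠ 0) (h4 : D4 ≠ 0)
    (h : N1 * (D2 * (D3 * D4)) + N2 * (D1 * (D3 * D4)) + N3 * (D1 * D2 * D4)
      + N4 * (D1 * D2 * D3) = 2 * (D1 * D2 * (D3 * D4)) - M) :
    N1 / D1 + N2 / D2 + N3 / D3 + N4 / D4 = 2 - M / (D1 * D2 * (D3 * D4)) := by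
  have e : M = 2 * (D1 * D2 * (D3 * D4)) - (N1 * (D2 * (D3 * D4)) + N2 * (D1 * (D3 * D4))
      + N3 * (D1 * D2 * D4) + N4 * (D1 * D2 * D3)) := by linarith
  rw [e]
  field_simp
  ring

/-- The pair identity. -/
theorem pair_identity (a b c d : ℝ)
    (h1 : (1 - c) * (1 - b) + c * (1 - a) ≠ 0) (h2 : (1 - d) * b + d * a ≠ 0)
    (h3 : (1 - a) * (1 - d) + a * (1 - c) ≠ 0) (h4 : (1 - b) * d + b * c ≠ 0) :
    (1 - a) * (1 - b) / ((1 - c) * (1 - b) + c * (1 - a)) + a * b / ((1 - d) * b + d * a)
      + (1 - c) * (1 - d) / ((1 - a) * (1 - d) + a * (1 - c)) + c * d / ((1 - b) * d + b * c)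
    = 2 - ((a - b) * (d * (1 - d)) - (c - d) * (b * (1 - b)) + (a - b) * (c - d) * (b - d)) ^ 2
        * (1 - (a - b) * (c - d)) /
        (((1 - c) * (1 - b) + c * (1 - a)) * ((1 - d) * b + d * a) *
          (((1 - a) * (1 - d) + a * (1 - c)) * ((1 - b) * d + b * c))) := by
  refine gen_identity _ _ _ _ _ _ _ _ _ h1 h2 h3 h4 ?_
  ring

theorem pair_pos {a b c d : ℝ} (ha0 : 0 ≤ a) (ha : a ≤ 1) (hb0 : 0 ≤ b) (hb : b ≤ 1)
    (hc0 : 0 ≤ c) (hc : c ≤ 1) (hd0 : 0 ≤ d) (hd : d ≤ 1)
    (h1 : (1 - c) * (1 - b) + c * (1 - a) ≠ 0) (h2 : (1 - d) * b + d * a ≠ 0)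
    (h3 : (1 - a) * (1 - d) + a * (1 - c) ≠ 0) (h4 : (1 - b) * d + b * c ≠ 0) :
    X a b c + X (1 - a) (1 - b) d + X c d a + X (1 - c) (1 - d) b ≤ 2 := by
  have e : X c d a = (1 - c) * (1 - d) / ((1 - a) * (1 - d) + a * (1 - c)) := rfl
  have e' : X a b c = (1 - a) * (1 - b) / ((1 - c) * (1 - b) + c * (1 - a)) := rfl
  rw [X_refl, X_refl, e, e', pair_identity a b c d h1 h2 h3 h4]
  have ka : 0 ≤ 1 - a := by linarith
  have kb : 0 ≤ 1 - b := by linarith
  have kc : 0 ≤ 1 - c := by linarith
  have kd : 0 ≤ 1 - d := by linarith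
  have k : 0 ≤ 1 - (a - b) * (c - d) := by
    have := abs_mul (a - b) (c - d)
    have h5 : |a - b| ≤ 1 := abs_le.mpr ⟨by linarith, by linarith⟩
    have h6 : |c - d| ≤ 1 := abs_le.mpr ⟨by linarith, by linarith⟩
    have h7 : |a - b| * |c - d| ≤ 1 := by
      calc |a - b| * |c - d| ≤ 1 * 1 := mul_le_mul h5 h6 (abs_nonneg _) (by norm_num)
        _ = 1 := by norm_num
    have := le_abs_self ((a - b) * (c - d))
    rw [abs_mul] at this
    linarith
  have : 0 ≤ ((a - b) * (d * (1 - d)) - (c - d) * (b * (1 - b)) + (a - b) * (c - d) * (b - d)) ^ 2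
        * (1 - (a - b) * (c - d)) /
        (((1 - c) * (1 - b) + c * (1 - a)) * ((1 - d) * b + d * a) *
          (((1 - a) * (1 - d) + a * (1 - c)) * ((1 - b) * d + b * c))) := by
    apply div_nonneg (mul_nonneg (sq_nonneg _) k)
    positivity
  linarith

theorem pair_zero {a b c d : ℝ} (ha0 : 0 ≤ a) (ha : a ≤ 1) (hb0 : 0 ≤ b) (hb : b ≤ 1)
    (hc0 : 0 ≤ c) (hc : c ≤ 1) (hd0 : 0 ≤ d) (hd : d ≤ 1)
    (h1 : (1 - c) * (1 - b) + c * (1 - a) = 0) :
    X a b c + X (1 - a) (1 - b) d + X c d a + X (1 - c) (1 - d) b ≤ 2 := by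
  have ka : 0 ≤ 1 - a := by linarith
  have kb : 0 ≤ 1 - b := by linarith
  have kc : 0 ≤ 1 - c := by linarith
  have kd : 0 ≤ 1 - d := by linarith
  have z : X a b c = 0 := by unfold X; rw [h1, div_zero]
  have s1 : (1 - c) * (1 - b) = 0 := by nlinarith [mul_nonneg kc kb, mul_nonneg hc0 ka]
  have s2 : c * (1 - a) = 0 := by nlinarith [mul_nonneg kc kb, mul_nonneg hc0 ka]
  have y1 : X (1 - a) (1 - b) d ≤ 1 :=
    X_le_one (by linarith) (by linarith) (by linarith) (by linarith) hd0 hd
  have y2 : X c d a ≤ 1 := X_le_one hc0 hc hd0 hd ha0 ha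
  have y3 : X (1 - c) (1 - d) b ≤ 1 :=
    X_le_one (by linarith) (by linarith) (by linarith) (by linarith) hb0 hb
  rcases mul_eq_zero.mp s2 with h | h
  · -- c = 0
    have : X (1 - c) (1 - d) b = 0 := by rw [X_refl, h]; simp
    rw [z, this]; linarith
  · -- a = 1
    rcases mul_eq_zero.mp s1 with h' | h'
    · -- c = 1
      have : X c d a = 0 := by unfold X; rw [h']; simp
      rw [z, this]; linarith
    · -- b = 1
      have ea : a = 1 := by linarith
      have eb : b = 1 := by linarith
      have t2 : X c d a ≤ 1 - d := by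
        unfold X
        rw [ea]
        rw [show (1 - (1:ℝ)) * (1 - d) + 1 * (1 - c) = 1 - c by ring]
        rcases eq_or_lt_of_le kc with h0 | h0
        · rw [← h0]; simp; linarith
        · rw [mul_comm, mul_div_assoc, div_self h0.ne', mul_one]
      have t3 : X (1 - c) (1 - d) b ≤ d := by
        rw [X_refl, eb]
        rw [show (1 - (1:ℝ)) * d + 1 * c = c by ring]
        rcases eq_or_lt_of_le hc0 with h0 | h0
        · rw [← h0]; simp; linarith
        · rw [mul_comm, mul_div_assoc, div_self h0.ne', mul_one]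
      rw [z]; linarith

theorem sym_swap (a b c d : ℝ) :
    X a b c + X (1 - a) (1 - b) d + X c d a + X (1 - c) (1 - d) b
      = X c d a + X (1 - c) (1 - d) b + X a b c + X (1 - a) (1 - b) d := by ring

theorem X_comm (c d a : ℝ) : X d c (1 - a) = X c d a := by
  unfold X
  congr 1 <;> ring

theorem pair {a b c d : ℝ} (ha0 : 0 ≤ a) (ha : a ≤ 1) (hb0 : 0 ≤ b) (hb : b ≤ 1)
    (hc0 : 0 ≤ c) (hc : c ≤ 1) (hd0 : 0 ≤ d) (hd : d ≤ 1) :
    X a b c + X (1 - a) (1 - b) d + X c d a + X (1 - c) (1 - d) b ≤ 2 := by
  by_cases h1 : (1 - c) * (1 - b) + c * (1 - a) = 0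
  · exact pair_zero ha0 ha hb0 hb hc0 hc hd0 hd h1
  by_cases h2 : (1 - d) * b + d * a = 0
  · have := pair_zero (a := 1 - a) (b := 1 - b) (c := d) (d := c) (by linarith) (by linarith)
      (by linarith) (by linarith) hd0 hd hc0 hc (by linarith)
    have e1 : X (1 - (1 - a)) (1 - (1 - b)) c = X a b c := by
      rw [sub_sub_cancel, sub_sub_cancel]
    have e2 : X d c (1 - a) = X c d a := X_comm c d a
    have e3 : X (1 - d) (1 - c) (1 - b) = X (1 - c) (1 - d) b := X_comm (1 - c) (1 - d) b
    rw [e1, e2, e3] at this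
    linarith
  by_cases h3 : (1 - a) * (1 - d) + a * (1 - c) = 0
  · have := pair_zero (a := c) (b := d) (c := a) (d := b) hc0 hc hd0 hd ha0 ha hb0 hb h3
    linarith
  by_cases h4 : (1 - b) * d + b * c = 0
  · have := pair_zero (a := 1 - c) (b := 1 - d) (c := b) (d := a) (by linarith) (by linarith)
      (by linarith) (by linarith) hb0 hb ha0 ha (by linarith)
    have e1 : X (1 - (1 - c)) (1 - (1 - d)) a = X c d a := by
      rw [sub_sub_cancel, sub_sub_cancel]
    have e2 : X b a (1 - c) = X a b c := X_comm a b c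
    have e3 : X (1 - b) (1 - a) (1 - d) = X (1 - a) (1 - b) d := X_comm (1 - a) (1 - b) d
    rw [e1, e2, e3] at this
    linarith
  exact pair_pos ha0 ha hb0 hb hc0 hc hd0 hd h1 h2 h3 h4

/-- The core statement for `n` planks `l i ≤ f i ≤ r i`. -/
def Core (E : Type*) [AddCommGroup E] [Module ℝ E] (n : ℕ) : Prop :=
  ∀ (C : Set E), Convex ℝ C → C.Nonempty → ∀ (f : Fin n → E →ₗ[ℝ] ℝ) (l r : Fin n → ℝ)
    (p q : Fin n → E), (∀ i, l i < r i) → (∀ i, p i ∈ C) → (∀ i, q i ∈ C) →
    (∀ i j, j ≠ i → l i ≤ f i (p j) ∧ f i (p j) ≤ r i) →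
    (∀ i j, j ≠ i → l i ≤ f i (q j) ∧ f i (q j) ≤ r i) →
    ∑ i, (r i - l i) / (max (f i (p i)) (r i) - min (f i (q i)) (l i)) < 1 →
    ∃ x ∈ C, ∀ i, f i x ≤ l i ∨ r i ≤ f i x

/-- Cutting by the half space `ρ ≤ g` and pulling all the points towards the apex `P`. -/
theorem pull {E : Type*} [AddCommGroup E] [Module ℝ E] {n : ℕ} (IH : Core E n) {C : Set E}
    (hC : Convex ℝ C) (g : E →ₗ[ℝ] ℝ) {P : E} (hP : P ∈ C) {ρ : ℝ} (hρ : ρ < g P)
    (f : Fin n → E →ₗ[ℝ] ℝ) (l r : Fin n → ℝ) (p q : Fin n → E) (hlr : ∀ i, l i < r i)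
    (hp : ∀ i, p i ∈ C) (hq : ∀ i, q i ∈ C)
    (hpi : ∀ i j, j ≠ i → l i ≤ f i (p j) ∧ f i (p j) ≤ r i)
    (hqi : ∀ i j, j ≠ i → l i ≤ f i (q j) ∧ f i (q j) ≤ r i)
    (hgp : ∀ j, g (p j) ≤ ρ) (hgq : ∀ j, g (q j) ≤ ρ)
    (hfP : ∀ j, l j ≤ f j P ∧ f j P ≤ r j)
    (hsum : ∑ j, (r j - l j) /
      ((g P - ρ) / (g P - g (p j)) * (max (f j (p j)) (r j) - f j P)
        + (g P - ρ) / (g P - g (q j)) * (f j P - min (f j (q j)) (l j))) < 1) :
    ∃ x ∈ C, ρ ≤ g x ∧ ∀ j, f j x ≤ l j ∨ r j ≤ f j x := by
  set s : Fin n → ℝ := fun j => (g P - ρ) / (g P - g (p j)) with hs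
  set t : Fin n → ℝ := fun j => (g P - ρ) / (g P - g (q j)) with ht
  have hδ : 0 < g P - ρ := by linarith
  have hs0 : ∀ j, 0 < s j := fun j => div_pos hδ (by linarith [hgp j])
  have ht0 : ∀ j, 0 < t j := fun j => div_pos hδ (by linarith [hgq j])
  have hs1 : ∀ j, s j ≤ 1 := fun j =>
    div_le_one_of_le₀ (by linarith [hgp j]) (by linarith [hgp j])
  have ht1 : ∀ j, t j ≤ 1 := fun j =>
    div_le_one_of_le₀ (by linarith [hgq j]) (by linarith [hgq j])
  have hsg : ∀ j, s j * (g P - g (p j)) = g P - ρ := fun j =>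
    div_mul_cancel₀ _ (by linarith [hgp j] : 0 < g P - g (p j)).ne'
  have htg : ∀ j, t j * (g P - g (q j)) = g P - ρ := fun j =>
    div_mul_cancel₀ _ (by linarith [hgq j] : 0 < g P - g (q j)).ne'
  have hval : ∀ (φ : E →ₗ[ℝ] ℝ) (x : E) (c : ℝ),
      φ ((1 - c) • P + c • x) = (1 - c) * φ P + c * φ x := by
    intro φ x c
    simp [map_add, map_smul]
  have hmem : ∀ (x : E) (c : ℝ), x ∈ C → 0 < c → c ≤ 1 → (1 - c) • P + c • x ∈ C := by
    intro x c hx h0 h1
    exact hC hP hx (by linarith) h0.le (by ring)
  obtain ⟨x, hx, hx2⟩ := IH (C ∩ {x | ρ ≤ g x}) (hC.inter (convex_halfSpace_ge g.isLinear ρ))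
    ⟨P, hP, hρ.le⟩ f l r (fun j => (1 - s j) • P + s j • p j) (fun j => (1 - t j) • P + t j • q j)
    hlr
    (fun j => ⟨hmem _ _ (hp j) (hs0 j) (hs1 j), by
      show ρ ≤ g ((1 - s j) • P + s j • p j)
      rw [hval]; nlinarith [hsg j]⟩)
    (fun j => ⟨hmem _ _ (hq j) (ht0 j) (ht1 j), by
      show ρ ≤ g ((1 - t j) • P + t j • q j)
      rw [hval]; nlinarith [htg j]⟩)
    (by
      intro i j hij
      have h1 := hpi i j hij
      have h2 := hfP i
      have h3 := hs0 j
      have h4 := hs1 j
      rw [hval]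
      constructor
      · nlinarith [mul_nonneg h3.le (sub_nonneg.mpr h1.1),
          mul_nonneg (sub_nonneg.mpr h4) (sub_nonneg.mpr h2.1)]
      · nlinarith [mul_nonneg h3.le (sub_nonneg.mpr h1.2),
          mul_nonneg (sub_nonneg.mpr h4) (sub_nonneg.mpr h2.2)])
    (by
      intro i j hij
      have h1 := hqi i j hij
      have h2 := hfP i
      have h3 := ht0 j
      have h4 := ht1 j
      rw [hval]
      constructor
      · nlinarith [mul_nonneg h3.le (sub_nonneg.mpr h1.1),
          mul_nonneg (sub_nonneg.mpr h4) (sub_nonneg.mpr h2.1)]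
      · nlinarith [mul_nonneg h3.le (sub_nonneg.mpr h1.2),
          mul_nonneg (sub_nonneg.mpr h4) (sub_nonneg.mpr h2.2)])
    (by
      refine lt_of_le_of_lt (Finset.sum_le_sum fun j _ => ?_) hsum
      have h2 := hfP j
      have T0 : f j P ≤ max (f j (p j)) (r j) := h2.2.trans (le_max_right _ _)
      have B0 : min (f j (q j)) (l j) ≤ f j P := (min_le_right _ _).trans h2.1
      have TB : min (f j (q j)) (l j) < max (f j (p j)) (r j) :=
        (min_le_right _ _).trans_lt ((hlr j).trans_le (le_max_right _ _))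
      have hT : f j P + s j * (max (f j (p j)) (r j) - f j P)
          ≤ max (f j ((1 - s j) • P + s j • p j)) (r j) := by
        rcases le_total (r j) (f j (p j)) with h | h
        · rw [max_eq_left h]
          refine le_trans (le_of_eq ?_) (le_max_left _ _)
          rw [hval]; ring
        · rw [max_eq_right h]
          refine le_trans ?_ (le_max_right _ _)
          nlinarith [mul_nonneg (sub_nonneg.mpr (hs1 j)) (sub_nonneg.mpr h2.2)]
      have hB : min (f j ((1 - t j) • P + t j • q j)) (l j)
          ≤ f j P - t j * (f j P - min (f j (q j)) (l j)) := by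
        rcases le_total (f j (q j)) (l j) with h | h
        · rw [min_eq_left h]
          refine le_trans (min_le_left _ _) (le_of_eq ?_)
          rw [hval]; ring
        · rw [min_eq_right h]
          refine le_trans (min_le_right _ _) ?_
          nlinarith [mul_nonneg (sub_nonneg.mpr (ht1 j)) (sub_nonneg.mpr h2.1)]
      have hpos : 0 < s j * (max (f j (p j)) (r j) - f j P)
          + t j * (f j P - min (f j (q j)) (l j)) := by
        rcases eq_or_lt_of_le T0 with h | h
        · have : 0 < f j P - min (f j (q j)) (l j) := by linarith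
          have := mul_pos (ht0 j) this
          nlinarith [mul_nonneg (hs0 j).le (sub_nonneg.mpr T0)]
        · have h' : 0 < max (f j (p j)) (r j) - f j P := by linarith
          have := mul_pos (hs0 j) h'
          nlinarith [mul_nonneg (ht0 j).le (sub_nonneg.mpr B0)]
      apply div_le_div_of_nonneg_left (by linarith [hlr j]) hpos
      linarith)
  exact ⟨x, hx.1, hx.2, hx2⟩

theorem core (E : Type*) [AddCommGroup E] [Module ℝ E] (n : ℕ) : Core E n := by
  induction n with
  | zero =>
    intro C _ hne f l r p q _ _ _ _ _ _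
    obtain ⟨x, hx⟩ := hne
    exact ⟨x, hx, fun i => i.elim0⟩
  | succ n IH =>
    intro C hC _ f l r p q hlr hp hq hpi hqi hsum
    set T : Fin (n + 1) → ℝ := fun i => max (f i (p i)) (r i) with hT
    set B : Fin (n + 1) → ℝ := fun i => min (f i (q i)) (l i) with hB
    have hrT : ∀ i, r i ≤ T i := fun i => le_max_right _ _
    have hBl : ∀ i, B i ≤ l i := fun i => min_le_right _ _
    have hH : ∀ i, 0 < T i - B i := fun i => by linarith [hrT i, hBl i, hlr i]
    set a : Fin (n + 1) → Fin (n + 1) → ℝ := fun i j => (f i (p j) - B i) / (T i - B i) with ha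
    set b : Fin (n + 1) → Fin (n + 1) → ℝ := fun i j => (f i (q j) - B i) / (T i - B i) with hb
    set w : Fin (n + 1) → ℝ := fun i => (r i - l i) / (T i - B i) with hw
    have hw0 : ∀ i, 0 < w i := fun i => div_pos (by linarith [hlr i]) (hH i)
    have ha0 : ∀ i j, j ≠ i → 0 ≤ a i j := fun i j hij =>
      div_nonneg (by linarith [(hpi i j hij).1, hBl i]) (hH i).le
    have hb0 : ∀ i j, j ≠ i → 0 ≤ b i j := fun i j hij =>
      div_nonneg (by linarith [(hqi i j hij).1, hBl i]) (hH i).le
    have ha1 : ∀ i j, j ≠ i → a i j ≤ 1 := fun i j hij =>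
      div_le_one_of_le₀ (by linarith [(hpi i j hij).2, hrT i]) (hH i).le
    have hb1 : ∀ i j, j ≠ i → b i j ≤ 1 := fun i j hij =>
      div_le_one_of_le₀ (by linarith [(hqi i j hij).2, hrT i]) (hH i).le
    set Z : Fin (n + 1) → Fin (n + 1) → ℝ := fun m j =>
      if j = m then 1 else X (a m j) (b m j) (a j m) + X (1 - a m j) (1 - b m j) (b j m) with hZ
    have hZZ : ∀ m j, Z m j + Z j m ≤ 2 := by
      intro m j
      by_cases h : j = m
      · subst h; simp [hZ]; norm_num
      · have h' : m ≠ j := fun e => h e.symm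
        simp only [hZ, if_neg h, if_neg h']
        have := pair (ha0 m j h) (ha1 m j h) (hb0 m j h) (hb1 m j h)
          (ha0 j m h') (ha1 j m h') (hb0 j m h') (hb1 j m h')
        linarith
    have hdouble : ∑ m, w m * ∑ j, w j * Z m j ≤ ∑ m, w m * ∑ j, w j := by
      have e1 : ∑ m, w m * ∑ j, w j * Z m j = ∑ m, ∑ j, w m * w j * Z m j := by
        refine Finset.sum_congr rfl fun m _ => ?_
        rw [Finset.mul_sum]
        exact Finset.sum_congr rfl fun j _ => by ring
      have e2 : ∑ m, ∑ j, w m * w j * Z m j = ∑ m, ∑ j, w m * w j * Z j m := by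
        rw [Finset.sum_comm]
        exact Finset.sum_congr rfl fun m _ => Finset.sum_congr rfl fun j _ => by ring
      have e3 : ∑ m, w m * ∑ j, w j = ∑ m, ∑ j, w m * w j := by
        exact Finset.sum_congr rfl fun m _ => Finset.mul_sum _ _ _
      have e4 : (∑ m, ∑ j, w m * w j * Z m j) + ∑ m, ∑ j, w m * w j * Z j m
          ≤ 2 * ∑ m, ∑ j, w m * w j := by
        rw [← Finset.sum_add_distrib, Finset.mul_sum]
        refine Finset.sum_le_sum fun m _ => ?_
        rw [← Finset.sum_add_distrib, Finset.mul_sum]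
        refine Finset.sum_le_sum fun j _ => ?_
        have := mul_le_mul_of_nonneg_left (hZZ m j) (mul_pos (hw0 m) (hw0 j)).le
        linarith
      rw [e1, e3]
      linarith
    obtain ⟨m, -, hm⟩ := Finset.exists_le_of_sum_le
      (s := (Finset.univ : Finset (Fin (n + 1)))) ⟨0, Finset.mem_univ _⟩ hdouble
    have hm' : ∑ j, w j * Z m j ≤ ∑ j, w j := le_of_mul_le_mul_left hm (hw0 m)
    rw [Fin.sum_univ_succAbove _ m, Fin.sum_univ_succAbove _ m] at hm'
    have hZm : Z m m = 1 := by simp [hZ]
    rw [hZm, mul_one] at hm'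
    have hsw : ∑ i, w i < 1 := hsum
    rw [Fin.sum_univ_succAbove _ m] at hsw
    have hne : ∀ j : Fin n, m.succAbove j ≠ m := fun j => Fin.succAbove_ne m j
    have hZs : ∑ j : Fin n, w (m.succAbove j) * Z m (m.succAbove j)
        = ∑ j : Fin n, w (m.succAbove j) *
            X (a m (m.succAbove j)) (b m (m.succAbove j)) (a (m.succAbove j) m)
          + ∑ j : Fin n, w (m.succAbove j) *
            X (1 - a m (m.succAbove j)) (1 - b m (m.succAbove j)) (b (m.succAbove j) m) := by
      rw [← Finset.sum_add_distrib]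
      refine Finset.sum_congr rfl fun j _ => ?_
      simp only [hZ, if_neg (hne j)]
      ring
    rw [hZs] at hm'
    have hwm : 1 - w m = (T m - r m) / (T m - B m) + (l m - B m) / (T m - B m) := by
      have := (hH m).ne'
      simp only [hw]
      field_simp
      ring
    have hcases : ∑ j : Fin n, w (m.succAbove j) *
            X (a m (m.succAbove j)) (b m (m.succAbove j)) (a (m.succAbove j) m)
            < (T m - r m) / (T m - B m) ∨
          ∑ j : Fin n, w (m.succAbove j) *
            X (1 - a m (m.succAbove j)) (1 - b m (m.succAbove j)) (b (m.succAbove j) m)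
            < (l m - B m) / (T m - B m) := by
      by_contra hcon
      push Not at hcon
      linarith [hcon.1, hcon.2]
    have finish : (∃ x ∈ C, (f m x ≤ l m ∨ r m ≤ f m x) ∧
        ∀ j : Fin n, f (m.succAbove j) x ≤ l (m.succAbove j) ∨
          r (m.succAbove j) ≤ f (m.succAbove j) x) →
        ∃ x ∈ C, ∀ i, f i x ≤ l i ∨ r i ≤ f i x := by
      rintro ⟨x, hx, h1, h2⟩
      refine ⟨x, hx, fun i => ?_⟩
      rcases Fin.eq_self_or_eq_succAbove m i with h | ⟨j, h⟩
      · rw [h]; exact h1
      · rw [h]; exact h2 j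
    rcases hcases with hc | hc
    · -- top
      have h0 : 0 ≤ ∑ j : Fin n, w (m.succAbove j) *
            X (a m (m.succAbove j)) (b m (m.succAbove j)) (a (m.succAbove j) m) :=
        Finset.sum_nonneg fun j _ => mul_nonneg (hw0 _).le
          (X_nonneg (ha1 _ _ (hne j)) (hb1 _ _ (hne j)) (ha0 _ _ (hne j).symm)
            (ha1 _ _ (hne j).symm))
      have h1 : 0 < (T m - r m) / (T m - B m) := lt_of_le_of_lt h0 hc
      have h2 : 0 < T m - r m := by
        by_contra h
        push Not at h
        have := div_nonpos_of_nonpos_of_nonneg h (hH m).le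
        linarith
      have h3 : T m = f m (p m) := by
        rcases le_total (r m) (f m (p m)) with h | h
        · exact max_eq_left h
        · have : T m = r m := max_eq_right h
          linarith
      obtain ⟨x, hx, hx1, hx2⟩ := pull IH hC (f m) (hp m) (ρ := r m) (by linarith)
        (fun j => f (m.succAbove j)) (fun j => l (m.succAbove j)) (fun j => r (m.succAbove j))
        (fun j => p (m.succAbove j)) (fun j => q (m.succAbove j))
        (fun j => hlr _) (fun j => hp _) (fun j => hq _)
        (fun i j hij => hpi _ _ (fun e => hij (Fin.succAbove_right_injective e)))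
        (fun i j hij => hqi _ _ (fun e => hij (Fin.succAbove_right_injective e)))
        (fun j => (hpi _ _ (hne j)).2) (fun j => (hqi _ _ (hne j)).2)
        (fun j => hpi _ _ (hne j).symm)
        (by
          have key : ∀ j : Fin n, (r (m.succAbove j) - l (m.succAbove j)) /
              ((f m (p m) - r m) / (f m (p m) - f m (p (m.succAbove j)))
                * (max (f (m.succAbove j) (p (m.succAbove j))) (r (m.succAbove j))
                    - f (m.succAbove j) (p m))
              + (f m (p m) - r m) / (f m (p m) - f m (q (m.succAbove j)))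
                * (f (m.succAbove j) (p m)
                    - min (f (m.succAbove j) (q (m.succAbove j))) (l (m.succAbove j))))
              = (w (m.succAbove j) *
                X (a m (m.succAbove j)) (b m (m.succAbove j)) (a (m.succAbove j) m)) /
                ((T m - r m) / (T m - B m)) := by
            intro j
            set k := m.succAbove j with hk
            have hkm : k ≠ m := hne j
            have u1 := (hpi m k hkm)
            have u2 := (hqi m k hkm)
            have u3 := (hpi k m hkm.symm)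
            have v1 : 0 < T m - f m (p k) := by linarith [u1.2]
            have v2 : 0 < T m - f m (q k) := by linarith [u2.2]
            have v3 : 0 ≤ T k - f k (p m) := by linarith [u3.2, hrT k]
            have v4 : 0 ≤ f k (p m) - B k := by linarith [u3.1, hBl k]
            have v5 := hH k
            have v6 := hH m
            have v7 : 0 < (T k - f k (p m)) * (T m - f m (q k)) +
                (f k (p m) - B k) * (T m - f m (p k)) := by
              rcases eq_or_lt_of_le v3 with h | h
              · have : 0 < f k (p m) - B k := by linarith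
                have := mul_pos this v1
                rw [← h]; linarith
              · have := mul_pos h v2
                nlinarith [mul_nonneg v4 v1.le]
            have eT : max (f k (p k)) (r k) = T k := rfl
            have eB : min (f k (q k)) (l k) = B k := rfl
            rw [eT, eB, ← h3]
            have x1 : 1 - a m k = (T m - f m (p k)) / (T m - B m) := by
              simp only [ha]; field_simp; ring
            have x2 : 1 - b m k = (T m - f m (q k)) / (T m - B m) := by
              simp only [hb]; field_simp; ring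
            have x3 : 1 - a k m = (T k - f k (p m)) / (T k - B k) := by
              simp only [ha]; field_simp; ring
            have x4 : a k m = (f k (p m) - B k) / (T k - B k) := rfl
            unfold X
            rw [x1, x2, x3, x4]
            simp only [hw]
            set A1 := T m - f m (p k)
            set A2 := T m - f m (q k)
            set A3 := T k - f k (p m)
            set A4 := f k (p m) - B k
            set A5 := T k - B k
            set A6 := T m - B m
            set A7 := T m - r m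
            have q1 : A7 / A1 * A3 + A7 / A2 * A4 = A7 * (A3 * A2 + A4 * A1) / (A1 * A2) := by
              field_simp
            have q2 : A3 / A5 * (A2 / A6) + A4 / A5 * (A1 / A6)
                = (A3 * A2 + A4 * A1) / (A5 * A6) := by
              field_simp
            rw [q1, q2]
            have v7' : A3 * A2 + A4 * A1 ≠ 0 := v7.ne'
            field_simp
          rw [Finset.sum_congr rfl fun j _ => key j, ← Finset.sum_div]
          rw [div_lt_one h1]
          exact hc)
      exact finish ⟨x, hx, Or.inr hx1, hx2⟩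
    · -- bottom
      have h0 : 0 ≤ ∑ j : Fin n, w (m.succAbove j) *
            X (1 - a m (m.succAbove j)) (1 - b m (m.succAbove j)) (b (m.succAbove j) m) :=
        Finset.sum_nonneg fun j _ => mul_nonneg (hw0 _).le
          (X_nonneg (by linarith [ha0 _ _ (hne j)]) (by linarith [hb0 _ _ (hne j)])
            (hb0 _ _ (hne j).symm) (hb1 _ _ (hne j).symm))
      have h1 : 0 < (l m - B m) / (T m - B m) := lt_of_le_of_lt h0 hc
      have h2 : 0 < l m - B m := by
        by_contra h
        push Not at h
        have := div_nonpos_of_nonpos_of_nonneg h (hH m).le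
        linarith
      have h3 : B m = f m (q m) := by
        rcases le_total (f m (q m)) (l m) with h | h
        · exact min_eq_left h
        · have : B m = l m := min_eq_right h
          linarith
      obtain ⟨x, hx, hx1, hx2⟩ := pull IH hC (-f m) (hq m) (ρ := -l m)
        (by rw [LinearMap.neg_apply]; linarith)
        (fun j => f (m.succAbove j)) (fun j => l (m.succAbove j)) (fun j => r (m.succAbove j))
        (fun j => p (m.succAbove j)) (fun j => q (m.succAbove j))
        (fun j => hlr _) (fun j => hp _) (fun j => hq _)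
        (fun i j hij => hpi _ _ (fun e => hij (Fin.succAbove_right_injective e)))
        (fun i j hij => hqi _ _ (fun e => hij (Fin.succAbove_right_injective e)))
        (fun j => by rw [LinearMap.neg_apply]; linarith [(hpi _ _ (hne j)).1])
        (fun j => by rw [LinearMap.neg_apply]; linarith [(hqi _ _ (hne j)).1])
        (fun j => hqi _ _ (hne j).symm)
        (by
          have key : ∀ j : Fin n, (r (m.succAbove j) - l (m.succAbove j)) /
              (((-f m) (q m) - -l m) / ((-f m) (q m) - (-f m) (p (m.succAbove j)))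
                * (max (f (m.succAbove j) (p (m.succAbove j))) (r (m.succAbove j))
                    - f (m.succAbove j) (q m))
              + ((-f m) (q m) - -l m) / ((-f m) (q m) - (-f m) (q (m.succAbove j)))
                * (f (m.succAbove j) (q m)
                    - min (f (m.succAbove j) (q (m.succAbove j))) (l (m.succAbove j))))
              = (w (m.succAbove j) *
                X (1 - a m (m.succAbove j)) (1 - b m (m.succAbove j)) (b (m.succAbove j) m)) /
                ((l m - B m) / (T m - B m)) := by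
            intro j
            set k := m.succAbove j with hk
            have hkm : k ≠ m := hne j
            have u1 := (hpi m k hkm)
            have u2 := (hqi m k hkm)
            have u3 := (hqi k m hkm.symm)
            have v1 : 0 < f m (p k) - B m := by linarith [u1.1]
            have v2 : 0 < f m (q k) - B m := by linarith [u2.1]
            have v3 : 0 ≤ T k - f k (q m) := by linarith [u3.2, hrT k]
            have v4 : 0 ≤ f k (q m) - B k := by linarith [u3.1, hBl k]
            have v5 := hH k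
            have v6 := hH m
            have v7 : 0 < (T k - f k (q m)) * (f m (q k) - B m) +
                (f k (q m) - B k) * (f m (p k) - B m) := by
              rcases eq_or_lt_of_le v3 with h | h
              · have : 0 < f k (q m) - B k := by linarith
                have := mul_pos this v1
                rw [← h]; linarith
              · have := mul_pos h v2
                nlinarith [mul_nonneg v4 v1.le]
            have eT : max (f k (p k)) (r k) = T k := rfl
            have eB : min (f k (q k)) (l k) = B k := rfl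
            rw [eT, eB, LinearMap.neg_apply, LinearMap.neg_apply, LinearMap.neg_apply, ← h3,
              show -B m - -l m = l m - B m by ring,
              show -B m - -f m (p k) = f m (p k) - B m by ring,
              show -B m - -f m (q k) = f m (q k) - B m by ring, X_refl]
            have x1 : a m k = (f m (p k) - B m) / (T m - B m) := rfl
            have x2 : b m k = (f m (q k) - B m) / (T m - B m) := rfl
            have x3 : 1 - b k m = (T k - f k (q m)) / (T k - B k) := by
              simp only [hb]; field_simp; ring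
            have x4 : b k m = (f k (q m) - B k) / (T k - B k) := rfl
            rw [x3, x1, x2, x4]
            simp only [hw]
            set A1 := f m (p k) - B m
            set A2 := f m (q k) - B m
            set A3 := T k - f k (q m)
            set A4 := f k (q m) - B k
            set A5 := T k - B k
            set A6 := T m - B m
            set A7 := l m - B m
            have q1 : A7 / A1 * A3 + A7 / A2 * A4 = A7 * (A3 * A2 + A4 * A1) / (A1 * A2) := by
              field_simp
            have q2 : A3 / A5 * (A2 / A6) + A4 / A5 * (A1 / A6)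
                = (A3 * A2 + A4 * A1) / (A5 * A6) := by
              field_simp
            rw [q1, q2]
            have v7' : A3 * A2 + A4 * A1 ≠ 0 := v7.ne'
            field_simp
          rw [Finset.sum_congr rfl fun j _ => key j, ← Finset.sum_div]
          rw [div_lt_one h1]
          exact hc)
      refine finish ⟨x, hx, Or.inl ?_, hx2⟩
      rw [LinearMap.neg_apply] at hx1
      linarith

/-- Chord version: `C` is convex and covered by the planks `a i ≤ f i ≤ b i`; the chord from `q i`
to `p i` has both its end points in every plank other than the `i`-th. -/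
theorem chords {E : Type*} [AddCommGroup E] [Module ℝ E] {n : ℕ} {C : Set E}
    (hC : Convex ℝ C) (hne : C.Nonempty) (f : Fin n → E →ₗ[ℝ] ℝ) (a b : Fin n → ℝ)
    (hab : ∀ i, a i ≤ b i) (hcov : ∀ x ∈ C, ∃ i, a i ≤ f i x ∧ f i x ≤ b i)
    (p q : Fin n → E) (hp : ∀ i, p i ∈ C) (hq : ∀ i, q i ∈ C)
    (hpq : ∀ i, f i (q i) < f i (p i))
    (hpi : ∀ i j, j ≠ i → a i ≤ f i (p j) ∧ f i (p j) ≤ b i)
    (hqi : ∀ i j, j ≠ i → a i ≤ f i (q j) ∧ f i (q j) ≤ b i) :
    1 ≤ ∑ i, (b i - a i) / (f i (p i) - f i (q i)) := by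
  by_contra hcon
  push Not at hcon
  set S := ∑ i, (b i - a i) / (f i (p i) - f i (q i)) with hS
  set R := ∑ i, 1 / (f i (p i) - f i (q i)) with hR
  have hR0 : 0 ≤ R := Finset.sum_nonneg fun i _ =>
    div_nonneg zero_le_one (by linarith [hpq i])
  set δ := (1 - S) / (4 * (R + 1)) with hδ
  have hδ0 : 0 < δ := div_pos (by linarith) (by linarith)
  have hδR : 2 * δ * R < 1 - S := by
    have h1 : δ * (4 * (R + 1)) = 1 - S := div_mul_cancel₀ _ (by linarith : (0:ℝ) < 4 * (R + 1)).ne'
    nlinarith
  obtain ⟨x, hx, hx2⟩ := core E n C hC hne f (fun i => a i - δ) (fun i => b i + δ) p q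
    (fun i => by linarith [hab i]) hp hq
    (fun i j hij => ⟨by linarith [(hpi i j hij).1], by linarith [(hpi i j hij).2]⟩)
    (fun i j hij => ⟨by linarith [(hqi i j hij).1], by linarith [(hqi i j hij).2]⟩)
    (by
      have h1 : ∑ i, ((b i + δ) - (a i - δ)) /
          (max (f i (p i)) (b i + δ) - min (f i (q i)) (a i - δ))
          ≤ ∑ i, ((b i - a i) / (f i (p i) - f i (q i)) +
              2 * δ * (1 / (f i (p i) - f i (q i)))) := by
        refine Finset.sum_le_sum fun i _ => ?_
        have h2 : (0:ℝ) < f i (p i) - f i (q i) := by linarith [hpq i]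
        have h3 : (b i - a i) / (f i (p i) - f i (q i)) + 2 * δ * (1 / (f i (p i) - f i (q i)))
            = ((b i + δ) - (a i - δ)) / (f i (p i) - f i (q i)) := by
          field_simp
          ring
        rw [h3]
        apply div_le_div_of_nonneg_left (by linarith [hab i]) h2
        have := le_max_left (f i (p i)) (b i + δ)
        have := min_le_left (f i (q i)) (a i - δ)
        linarith
      refine lt_of_le_of_lt h1 ?_
      rw [Finset.sum_add_distrib, ← Finset.mul_sum]
      linarith)
  obtain ⟨i, hi1, hi2⟩ := hcov x hx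
  rcases hx2 i with h | h
  · linarith
  · linarith

theorem sSup_of_ext {d : ℕ} {C : Set (EuclideanSpace ℝ (Fin d))} {u p : EuclideanSpace ℝ (Fin d)}
    (hp : p ∈ C) (h : ∀ x ∈ C, inner ℝ u x ≤ inner ℝ u p) :
    sSup ((fun x => inner ℝ u x) '' C) = inner ℝ u p := by
  apply IsGreatest.csSup_eq
  refine ⟨⟨p, hp, rfl⟩, ?_⟩
  rintro _ ⟨x, hx, rfl⟩
  exact h x hx

theorem sInf_of_ext {d : ℕ} {C : Set (EuclideanSpace ℝ (Fin d))} {u q : EuclideanSpace ℝ (Fin d)}
    (hq : q ∈ C) (h : ∀ x ∈ C, inner ℝ u q ≤ inner ℝ u x) :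
    sInf ((fun x => inner ℝ u x) '' C) = inner ℝ u q := by
  apply IsLeast.csInf_eq
  refine ⟨⟨q, hq, rfl⟩, ?_⟩
  rintro _ ⟨x, hx, rfl⟩
  exact h x hx

/-- **Main theorem.** (1) Let a nonempty convex set `C` of a real vector space be covered by the
planks `a i ≤ f i ≤ b i`, and let `C` contain for each `i` a chord `[q i, p i]` with
`f i (q i) < f i (p i)` whose two end points lie in all the other planks. Then
`∑ (b i - a i) / (f i (p i) - f i (q i)) ≥ 1`.
(2) Bang's affine plank inequality for a convex body `C` in `E^d` covered by planks, when for each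
plank `C` has a point on each of the two supporting hyperplanes parallel to the plank, and these
two points lie in all the other planks. -/
theorem result :
    (∀ (E : Type) [AddCommGroup E] [Module ℝ E] (n : ℕ) (C : Set E), Convex ℝ C → C.Nonempty →
      ∀ (f : Fin n → E →ₗ[ℝ] ℝ) (a b : Fin n → ℝ), (∀ i, a i ≤ b i) →
        (∀ x ∈ C, ∃ i, a i ≤ f i x ∧ f i x ≤ b i) →
        ∀ (p q : Fin n → E), (∀ i, p i ∈ C) → (∀ i, q i ∈ C) → (∀ i, f i (q i) < f i (p i)) →
        (∀ i j, j ≠ i → a i ≤ f i (p j) ∧ f i (p j) ≤ b i) →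
        (∀ i j, j ≠ i → a i ≤ f i (q j) ∧ f i (q j) ≤ b i) →
        1 ≤ ∑ i, (b i - a i) / (f i (p i) - f i (q i))) ∧
    (∀ (d n : ℕ) (C : Set (EuclideanSpace ℝ (Fin d))),
      IsCompact C → Convex ℝ C → (interior C).Nonempty →
      ∀ (u : Fin n → EuclideanSpace ℝ (Fin d)) (a b : Fin n → ℝ),
        (∀ i, u i ≠ 0) → (∀ i, a i < b i) →
        C ⊆ ⋃ i, {x | a i ≤ inner ℝ (u i) x ∧ inner ℝ (u i) x ≤ b i} →
        (∀ i, ∃ p ∈ C, ∃ q ∈ C, (∀ x ∈ C, inner ℝ (u i) x ≤ inner ℝ (u i) p) ∧
          (∀ x ∈ C, inner ℝ (u i) q ≤ inner ℝ (u i) x) ∧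
          ∀ j, j ≠ i → (a j ≤ inner ℝ (u j) p ∧ inner ℝ (u j) p ≤ b j) ∧
            (a j ≤ inner ℝ (u j) q ∧ inner ℝ (u j) q ≤ b j)) →
        1 ≤ ∑ i, (b i - a i) /
          (sSup ((fun x => inner ℝ (u i) x) '' C) - sInf ((fun x => inner ℝ (u i) x) '' C))) := by
  refine ⟨fun E _ _ n C hC hne f a b hab hcov p q hp hq hpq hpi hqi =>
    chords hC hne f a b hab hcov p q hp hq hpq hpi hqi, ?_⟩
  intro d n C _ hC hi u a b hu hab hcov h
  choose p hp q hq hmax hmin hin using h
  have e : ∀ i, sSup ((fun x => inner ℝ (u i) x) '' C) - sInf ((fun x => inner ℝ (u i) x) '' C)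
      = (innerSL ℝ (u i)).toLinearMap (p i) - (innerSL ℝ (u i)).toLinearMap (q i) := by
    intro i
    rw [sSup_of_ext (hp i) (hmax i), sInf_of_ext (hq i) (hmin i)]
    simp
  have hpos : ∀ i, inner ℝ (u i) (q i) < inner ℝ (u i) (p i) := by
    intro i
    obtain ⟨z, hz⟩ := hi
    obtain ⟨ε, hε, hball⟩ := Metric.isOpen_iff.mp isOpen_interior z hz
    have hui : 0 < ‖u i‖ := norm_pos_iff.mpr (hu i)
    set t : ℝ := ε / (2 * ‖u i‖) with ht
    have ht0 : 0 < t := by positivity
    have hz' : z + t • u i ∈ C := by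
      apply interior_subset
      apply hball
      rw [Metric.mem_ball, dist_eq_norm, add_sub_cancel_left, norm_smul, Real.norm_eq_abs,
        abs_of_pos ht0, ht, div_mul_eq_mul_div, div_lt_iff₀ (by positivity)]
      nlinarith [mul_pos hε hui]
    have h1 := hmin i z (interior_subset hz)
    have h2 := hmax i _ hz'
    rw [inner_add_right, inner_smul_right, real_inner_self_eq_norm_sq] at h2
    have : 0 < t * ‖u i‖ ^ 2 := by positivity
    linarith
  rw [Finset.sum_congr rfl fun i _ => by rw [e i]]
  refine chords hC ⟨hi.some, interior_subset hi.some_mem⟩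
    (fun i => (innerSL ℝ (u i)).toLinearMap) a b (fun i => (hab i).le) ?_ p q hp hq ?_ ?_ ?_
  · intro x hx
    have := hcov hx
    rw [Set.mem_iUnion] at this
    obtain ⟨i, hi⟩ := this
    exact ⟨i, by simpa using hi⟩
  · intro i; simpa using hpos i
  · intro i j hij; simpa using (hin j i hij.symm).1
  · intro i j hij; simpa using (hin j i hij.symm).2

end Pool.Agent.Results.MP_79af62_gt.InsideChords
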